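import Pool.Agent.Q88.ThreeCol.Vec
import Mathlib.GroupTheory.GroupAction.Quotient
import Mathlib.LinearAlgebra.Dimension.Free
import Mathlib.LinearAlgebra.FreeModule.Finite.Basic
import Mathlib.LinearAlgebra.Dimension.Finite
import Mathlib.LinearAlgebra.Dimension.Constructions
import Mathlib.LinearAlgebra.Basis.VectorSpace
import Mathlib.SetTheory.Cardinal.Finite

/-! # Colourings of an orbit of an elementary abelian group -/

namespace Pool.Agent.Q88.ThreeCol

theorem exists_lin (p : ℕ) [Fact p.Prime] {W : Type} [AddCommGroup W] [Finite W]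
    (hW : ∀ w : W, p • w = 0) : ∃ n : ℕ, Nonempty (W ≃+ (Fin n → ZMod p)) := by
  let i1 : Module (ZMod p) W := AddCommGroup.zmodModule hW
  have hfin : @Module.Finite (ZMod p) W _ _ i1 := @Module.Finite.of_finite _ _ _ _ i1 _
  have hfree : @Module.Free (ZMod p) W _ _ i1 := @Module.Free.of_divisionRing _ _ _ _ i1
  exact ⟨_, ⟨(@Module.finBasis (ZMod p) W _ _ i1 hfree _ hfin).equivFun.toAddEquiv⟩⟩

theorem model (p : ℕ) [Fact p.Prime] {V X : Type} [CommGroup V] [Finite V] [MulAction V X]
    [MulAction.IsPretransitive V X] (hV : ∀ v : V, v ^ p = 1) (x0 : X) :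
    ∃ n : ℕ, ∃ E : X ≃ (Fin n → ZMod p), ∃ τ : V → (Fin n → ZMod p),
      (∀ w, ∃ v, τ v = w) ∧ ∀ v x, E (v • x) = E x + τ v := by
  classical
  let K := MulAction.stabilizer V x0
  let W := Additive (V ⧸ K)
  have hW : ∀ w : W, p • w = 0 := by
    intro w
    obtain ⟨v, rfl⟩ : ∃ v : V, w = Additive.ofMul (QuotientGroup.mk v : V ⧸ K) := by
      obtain ⟨v, hv⟩ := QuotientGroup.mk_surjective (Additive.toMul w)
      exact ⟨v, by rw [hv]; rfl⟩
    rw [← ofMul_pow, ← QuotientGroup.mk_pow, hV]
    rfl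
  have : Finite W := inferInstanceAs (Finite (V ⧸ K))
  obtain ⟨n, ⟨L⟩⟩ := exists_lin p hW
  let E1 : V ⧸ K ≃ X := Equiv.ofBijective (MulAction.ofQuotientStabilizer V x0)
    ⟨MulAction.injective_ofQuotientStabilizer V x0, by
      intro x
      obtain ⟨v, hv⟩ := MulAction.exists_smul_eq V x0 x
      exact ⟨QuotientGroup.mk v, hv⟩⟩
  have hE1 : ∀ (v u : V), E1 (QuotientGroup.mk (v * u)) = v • E1 (QuotientGroup.mk u) := by
    intro v u
    exact MulAction.ofQuotientStabilizer_smul V x0 v (QuotientGroup.mk u)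
  refine ⟨n, E1.symm.trans (Additive.ofMul.trans L.toEquiv), fun v =>
    L (Additive.ofMul (QuotientGroup.mk v)), ?_, ?_⟩
  · intro w
    obtain ⟨v, hv⟩ := QuotientGroup.mk_surjective (Additive.toMul (L.symm w))
    refine ⟨v, ?_⟩
    change L (Additive.ofMul (QuotientGroup.mk v)) = w
    rw [hv]
    exact L.apply_symm_apply w
  · intro v x
    obtain ⟨q, rfl⟩ := E1.surjective x
    obtain ⟨u, rfl⟩ := QuotientGroup.mk_surjective q
    rw [← hE1]
    change L (Additive.ofMul (E1.symm (E1 _))) = L (Additive.ofMul (E1.symm (E1 _))) + _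
    rw [Equiv.symm_apply_apply, Equiv.symm_apply_apply, add_comm, ← map_add]
    rfl

/-- Every transitive action of an elementary abelian `p`-group has a colouring with good
properties, whose colour counts depend only on the degree. -/
theorem orbCol (p : ℕ) [Fact p.Prime] : ∃ N : ℕ → ZMod 3 → ℕ, (∀ n, N n 0 = 1) ∧
    (∀ n, p ^ n = 3 → N n 2 = 0) ∧ (∀ n, N n 0 + N n 1 + N n 2 = p ^ n) ∧
    ∀ (V X : Type) [CommGroup V] [Finite V] [MulAction V X] [MulAction.IsPretransitive V X]
      [Nonempty X], (∀ v : V, v ^ p = 1) → ∃ (n : ℕ) (c : X → ZMod 3),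
      (∀ i, Nat.card {x // c x = i} = N n i) ∧
      ∀ h : X ≃ X, (∀ v : V, ∃ v' : V, ∀ x, h (v • x) = v' • h x) → (∀ x, c (h x) = c x) →
        ∃ k : ℕ, ∀ x, h^[2 ^ k] x = x := by
  choose c hc0 hc3 hc using fun n => vec p n
  refine ⟨fun n i => Nat.card {v // c n v = i}, ?_, ?_, ?_, ?_⟩
  · intro n
    have h1 : ∀ v, c n v = 0 ↔ v = 0 := hc0 n
    change Nat.card {v // c n v = 0} = 1
    rw [Nat.card_congr (Equiv.subtypeEquivRight h1)]
    exact Nat.card_unique
  · intro n hn
    have h1 : IsEmpty {v // c n v = 2} := ⟨fun v => hc3 n hn v.1 v.2⟩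
    exact Nat.card_of_isEmpty
  · intro n
    have h1 : Nat.card (Fin n → ZMod p) = p ^ n := by
      rw [Nat.card_fun, Nat.card_zmod, Nat.card_fin]
    have h2 : Nat.card (Σ i : ZMod 3, {v // c n v = i}) = Nat.card (Fin n → ZMod p) :=
      Nat.card_congr (Equiv.sigmaFiberEquiv (c n))
    rw [← h1, ← h2, Nat.card_sigma]
    have h3 : ∀ f : ZMod 3 → ℕ, f 0 + f 1 + f 2 = ∑ a, f a := by
      intro f
      rw [show (Finset.univ : Finset (ZMod 3)) = {0, 1, 2} from rfl]
      rw [Finset.sum_insert (by decide), Finset.sum_insert (by decide), Finset.sum_singleton,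
        add_assoc]
    exact h3 fun i => Nat.card {v // c n v = i}
  · intro V X _ _ _ _ _ hV
    obtain ⟨x0⟩ := (inferInstance : Nonempty X)
    obtain ⟨n, E, τ, hτ, hE⟩ := model p hV x0
    refine ⟨n, fun x => c n (E x), ?_, ?_⟩
    · intro i
      exact Nat.card_congr (E.subtypeEquiv fun x => Iff.rfl)
    · intro h hn hh
      have ha : Aff (E.symm.trans (h.trans E)) := by
        intro x y w
        obtain ⟨v, rfl⟩ := hτ w
        obtain ⟨v', hv'⟩ := hn v
        obtain ⟨x, rfl⟩ := E.surjective x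
        obtain ⟨y, rfl⟩ := E.surjective y
        rw [← hE, ← hE]
        simp only [Equiv.trans_apply, Equiv.symm_apply_apply]
        rw [hv', hv', hE, hE, add_sub_cancel_left, add_sub_cancel_left]
      have hb : ∀ x, c n ((E.symm.trans (h.trans E)) x) = c n x := by
        intro x
        obtain ⟨x, rfl⟩ := E.surjective x
        simp only [Equiv.trans_apply, Equiv.symm_apply_apply]
        exact hh x
      obtain ⟨k, hk⟩ := hc n _ ha hb
      refine ⟨k, fun x => ?_⟩
      have h1 : ∀ m : ℕ, ∀ y, (E.symm.trans (h.trans E))^[m] (E y) = E (h^[m] y) := by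
        intro m
        induction m with
        | zero => intro y; rfl
        | succ m ih =>
          intro y
          rw [Function.iterate_succ_apply', ih, Function.iterate_succ_apply']
          simp only [Equiv.trans_apply, Equiv.symm_apply_apply]
      have h2 := hk (E x)
      rw [h1] at h2
      exact E.injective h2

end Pool.Agent.Q88.ThreeCol
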