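import Mathlib.Data.ZMod.Basic
import Mathlib.Algebra.Module.ZMod
import Mathlib.LinearAlgebra.Pi
import Mathlib.Algebra.Field.ZMod
import Mathlib.Data.Fintype.BigOperators
import Mathlib.Dynamics.PeriodicPts.Lemmas
import Mathlib.Tactic.FinCases
import Mathlib.Tactic.Linarith
import Mathlib.Tactic.Ring

/-! # Colourings of finite vector spaces -/

namespace Pool.Agent.Q88.ThreeCol

/-- A permutation of a vector space is affine. -/
def Aff {V : Type} [AddCommGroup V] (h : V ≃ V) : Prop :=
  ∀ x y v, h (x + v) - h x = h (y + v) - h y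

theorem Aff.add {V : Type} [AddCommGroup V] {h : V ≃ V} (ha : Aff h) (h0 : h 0 = 0) (x y : V) :
    h (x + y) = h x + h y := by
  have h1 := ha x 0 y
  rw [zero_add, h0, sub_zero] at h1
  rw [← h1]; abel

theorem Aff.symm {V : Type} [AddCommGroup V] {h : V ≃ V} (ha : Aff h) : Aff h.symm := by
  intro x y v
  have h1 := ha (h.symm x) (h.symm y) (h.symm (x + v) - h.symm x)
  rw [add_sub_cancel, Equiv.apply_symm_apply, Equiv.apply_symm_apply, Equiv.apply_symm_apply,
    add_sub_cancel_left] at h1
  have h2 : h (h.symm y + (h.symm (x + v) - h.symm x)) = y + v :=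
    eq_add_of_sub_eq' h1.symm
  have h3 : h.symm y + (h.symm (x + v) - h.symm x) = h.symm (y + v) := by
    rw [← h2, Equiv.symm_apply_apply]
  exact eq_sub_of_add_eq' h3

theorem iter_add {V : Type} [AddCommGroup V] {h : V ≃ V} (hadd : ∀ x y, h (x + y) = h x + h y)
    (k : ℕ) (x y : V) : h^[k] (x + y) = h^[k] x + h^[k] y := by
  induction k with
  | zero => rfl
  | succ k ih => rw [Function.iterate_succ_apply', ih, hadd, Function.iterate_succ_apply',
      Function.iterate_succ_apply']

section Two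

variable {n : ℕ}

/-- `v` lies in the `i`-th member of the standard flag. -/
def Fl (i : ℕ) (v : Fin n → ZMod 2) : Prop := ∀ j : Fin n, i ≤ j → v j = 0

theorem Fl_n (v : Fin n → ZMod 2) : Fl n v := fun j hj => absurd j.2 (by omega)

theorem ex_Fl (v : Fin n → ZMod 2) : ∃ i, Fl i v := ⟨n, Fl_n v⟩

open Classical in
/-- the position of `v` in the flag -/
noncomputable def lead (v : Fin n → ZMod 2) : ℕ := Nat.find (ex_Fl v)

theorem lead_le_iff {v : Fin n → ZMod 2} {i : ℕ} : lead v ≤ i ↔ Fl i v := by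
  classical
  constructor
  · intro h j hj
    exact Nat.find_spec (ex_Fl v) j (h.trans hj)
  · intro h
    exact Nat.find_min' _ h

theorem lead_eq_zero {v : Fin n → ZMod 2} : lead v = 0 ↔ v = 0 := by
  rw [← Nat.le_zero, lead_le_iff]
  constructor
  · intro h
    funext j
    exact h j (Nat.zero_le _)
  · rintro rfl j _
    rfl

theorem Fl.sub {i : ℕ} {v w : Fin n → ZMod 2} (hv : Fl i v) (hw : Fl i w) : Fl i (v - w) := by
  intro j hj
  rw [Pi.sub_apply, hv j hj, hw j hj, sub_zero]

theorem Fl.add {i : ℕ} {v w : Fin n → ZMod 2} (hv : Fl i v) (hw : Fl i w) : Fl i (v + w) := by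
  intro j hj
  rw [Pi.add_apply, hv j hj, hw j hj, add_zero]

/-- the colouring in characteristic two -/
noncomputable def col2 (v : Fin n → ZMod 2) : ZMod 3 :=
  if lead v = 0 then 0 else if lead v % 2 = 0 then 1 else 2

theorem col2_zero {v : Fin n → ZMod 2} : col2 v = 0 ↔ v = 0 := by
  rw [← lead_eq_zero]
  unfold col2
  split_ifs with h1 h2
  · simp [h1]
  · simp only [h1, iff_false]; decide
  · simp only [h1, iff_false]; decide

theorem flag_step {h : (Fin n → ZMod 2) ≃ (Fin n → ZMod 2)} (hadd : ∀ x y, h (x + y) = h x + h y)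
    (hc : ∀ x, col2 (h x) = col2 x) (i : ℕ) (hi : i ≤ n)
    (hP : ∀ v, Fl (i + 1) v → Fl (i + 1) (h v)) : ∀ v, Fl i v → Fl i (h v) := by
  -- vectors of position exactly `i`
  have hex : ∀ v : Fin n → ZMod 2, lead v = i → Fl i (h v) := by
    intro v hv
    by_cases hi0 : i = 0
    · rw [hi0] at hv ⊢
      have h1 : col2 (h v) = 0 := by rw [hc, col2_zero, ← lead_eq_zero, hv]
      rw [col2_zero] at h1
      rw [h1]; intro j _; rfl
    · rw [← lead_le_iff]
      have h1 : lead (h v) ≤ i + 1 := lead_le_iff.mpr (hP v (lead_le_iff.mp (by omega)))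
      by_contra hcon
      have h2 : lead (h v) = i + 1 := by omega
      have h3 := hc v
      unfold col2 at h3
      rw [h2, hv, if_neg (by omega), if_neg hi0] at h3
      rcases Nat.even_or_odd' i with ⟨m, hm | hm⟩
      · rw [if_neg (by omega), if_pos (by omega)] at h3
        exact absurd h3 (by decide)
      · rw [if_pos (by omega), if_neg (by omega)] at h3
        exact absurd h3 (by decide)
  intro v hv
  by_cases hlead : lead v = i
  · exact hex v hlead
  · have hlt : lead v < i := lt_of_le_of_ne (lead_le_iff.mpr hv) hlead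
    obtain ⟨q, hq⟩ : ∃ q : Fin n, (q : ℕ) = i - 1 := ⟨⟨i - 1, by omega⟩, rfl⟩
    obtain ⟨e, he1, he0⟩ : ∃ e : Fin n → ZMod 2, e q = 1 ∧ ∀ j, j ≠ q → e j = 0 :=
      ⟨Pi.single q 1, Pi.single_eq_same _ _, fun j hj => Pi.single_eq_of_ne hj _⟩
    have he : ∀ w : Fin n → ZMod 2, lead w < i → lead (w + e) = i := by
      intro w hw
      apply le_antisymm
      · rw [lead_le_iff]
        intro j hj
        have h1 : w j = 0 := lead_le_iff.mp hw.le j hj
        have h2 : j ≠ q := by
          intro h3
          rw [h3, hq] at hj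
          omega
        rw [Pi.add_apply, h1, he0 j h2, add_zero]
      · by_contra hcon
        push Not at hcon
        have h1 : Fl (i - 1) (w + e) := lead_le_iff.mp (by omega)
        have h2 := h1 q hq.ge
        have h3 : w q = 0 := (lead_le_iff (i := i - 1)).mp (by omega) _ hq.ge
        rw [Pi.add_apply, h3, he1, zero_add] at h2
        exact absurd h2 (by decide)
    have h1 := hex (v + e) (he v hlt)
    have h2 := hex (0 + e) (he 0 (by rw [lead_eq_zero.mpr rfl]; omega))
    rw [zero_add] at h2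
    rw [hadd] at h1
    have h3 := h1.sub h2
    rwa [add_sub_cancel_right] at h3

theorem flag_preserved {h : (Fin n → ZMod 2) ≃ (Fin n → ZMod 2)}
    (hadd : ∀ x y, h (x + y) = h x + h y) (hc : ∀ x, col2 (h x) = col2 x) :
    ∀ i ≤ n, ∀ v, Fl i v → Fl i (h v) := by
  have key : ∀ d i, i + d = n → ∀ v, Fl i v → Fl i (h v) := by
    intro d
    induction d with
    | zero => intro i hi v _; rw [add_zero] at hi; subst hi; exact Fl_n _
    | succ d ih => intro i hi; exact flag_step hadd hc i (by omega) (ih (i + 1) (by omega))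
  intro i hi
  exact key (n - i) i (by omega)

theorem two_power (h : (Fin n → ZMod 2) ≃ (Fin n → ZMod 2)) (ha : Aff h)
    (hc : ∀ x, col2 (h x) = col2 x) : ∃ k : ℕ, ∀ x, h^[2 ^ k] x = x := by
  have h0 : h 0 = 0 := by rw [← col2_zero, hc, col2_zero]
  have hadd := ha.add h0
  have h0' : h.symm 0 = 0 := by rw [Equiv.symm_apply_eq, h0]
  have hc' : ∀ x, col2 (h.symm x) = col2 x := by
    intro x
    rw [← hc (h.symm x), Equiv.apply_symm_apply]
  have hadd' := ha.symm.add h0'
  have hP := flag_preserved hadd hc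
  have hP' := flag_preserved hadd' hc'
  -- `h` acts trivially on the quotients of the flag
  have htriv : ∀ i < n, ∀ v, Fl (i + 1) v → Fl i (h v - v) := by
    intro i hi v hv j hj
    rcases Nat.lt_or_eq_of_le hj with h1 | h1
    · rw [Pi.sub_apply, hP (i + 1) (by omega) v hv j h1, hv j h1, sub_zero]
    · have hvi : ∀ w : Fin n → ZMod 2, Fl (i + 1) w → (Fl i w ↔ w j = 0) := by
        intro w hw
        constructor
        · intro h2; exact h2 j hj
        · intro h2 j' hj'
          rcases Nat.lt_or_eq_of_le hj' with h3 | h3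
          · exact hw j' h3
          · have : j' = j := Fin.ext (by omega)
            rw [this, h2]
      have h2 : v j = 0 ↔ (h v) j = 0 := by
        rw [← hvi v hv, ← hvi _ (hP (i + 1) (by omega) v hv)]
        constructor
        · intro h3; exact hP i hi.le v h3
        · intro h3
          have := hP' i hi.le _ h3
          rwa [Equiv.symm_apply_apply] at this
      rw [Pi.sub_apply]
      have h3 : ∀ a b : ZMod 2, (a = 0 ↔ b = 0) → b - a = 0 := by decide
      exact h3 _ _ h2
  have hit : ∀ i < n, ∀ (k : ℕ) (v), Fl (i + 1) v → Fl i (h^[k] v - v) := by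
    intro i hi k v hv
    induction k with
    | zero => intro j _; simp
    | succ k ih =>
      have h1 : Fl (i + 1) (h^[k] v) := by
        have h2 : h^[k] v = (h^[k] v - v) + v := by abel
        rw [h2]
        exact Fl.add (fun j hj => ih j (by omega)) hv
      have h2 := htriv i hi _ h1
      rw [Function.iterate_succ_apply']
      have h3 : h (h^[k] v) - v = (h (h^[k] v) - h^[k] v) + (h^[k] v - v) := by abel
      rw [h3]
      exact h2.add ih
  have hmain : ∀ i ≤ n, ∀ v, Fl i v → h^[2 ^ i] v = v := by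
    intro i
    induction i with
    | zero =>
      intro _ v hv
      have : v = 0 := lead_eq_zero.mp (Nat.le_zero.mp (lead_le_iff.mpr hv))
      rw [this]
      simpa using h0
    | succ i ih =>
      intro hi v hv
      have h1 := hit i (by omega) (2 ^ i) v hv
      have h2 := ih (by omega) _ h1
      rw [pow_succ, mul_two, Function.iterate_add_apply]
      have h3 : h^[2 ^ i] v = v + (h^[2 ^ i] v - v) := by abel
      have h4 := iter_add hadd (2 ^ i) v (h^[2 ^ i] v - v)
      rw [← h3, h2] at h4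
      rw [h4]
      have h5 : ∀ a b : ZMod 2, a + (a - b) = b := by decide
      funext j
      exact h5 _ _
  exact ⟨n, fun x => hmain n le_rfl x (Fl_n x)⟩

end Two

section Odd

variable {p n : ℕ}

/-- the indicator vector of a set of coordinates -/
def ind (p : ℕ) (T : Finset (Fin n)) : Fin n → ZMod p := fun i => if i ∈ T then 1 else 0

theorem ind_add_disj {T U : Finset (Fin n)} (h : Disjoint T U) :
    ind p T + ind p U = ind p (T ∪ U) := by
  funext i
  simp only [Pi.add_apply, ind, Finset.mem_union]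
  by_cases h1 : i ∈ T
  · have h2 : i ∉ U := Finset.disjoint_left.mp h h1
    simp [h1, h2]
  · by_cases h2 : i ∈ U
    · simp [h1, h2]
    · simp [h1, h2]

theorem ind_add [Fact p.Prime] (hp : p ≠ 2) {T U W : Finset (Fin n)}
    (h : ind p T + ind p U = ind p W) : Disjoint T U ∧ W = T ∪ U := by
  have h2 : (2 : ZMod p) ≠ 0 := by
    intro h0
    have h1 : ((2 : ℕ) : ZMod p) = 0 := by exact_mod_cast h0
    rw [ZMod.natCast_eq_zero_iff] at h1
    exact hp ((Nat.prime_dvd_prime_iff_eq (Fact.out) Nat.prime_two).mp h1)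
  have h3 : (1 : ZMod p) + 1 ≠ 0 := by rw [one_add_one_eq_two]; exact h2
  have h4 : (1 : ZMod p) + 1 ≠ 1 := by
    intro h0
    exact one_ne_zero (add_eq_left.mp h0)
  have key : ∀ i, (i ∈ T → i ∉ U) ∧ (i ∈ W ↔ i ∈ T ∨ i ∈ U) := by
    intro i
    have h5 := congrFun h i
    simp only [Pi.add_apply, ind] at h5
    by_cases hT : i ∈ T <;> by_cases hU : i ∈ U <;> by_cases hW : i ∈ W <;>
      simp [hT, hU, hW, h3, h4] at h5 ⊢
  constructor
  · rw [Finset.disjoint_left]
    exact fun i => (key i).1
  · ext i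
    rw [Finset.mem_union]
    exact (key i).2

theorem ind_inj [Fact p.Prime] {T U : Finset (Fin n)} (h : ind p T = ind p U) : T = U := by
  ext i
  have h5 := congrFun h i
  simp only [ind] at h5
  by_cases hT : i ∈ T <;> by_cases hU : i ∈ U <;> simp [hT, hU] at h5 ⊢

/-- the marked sets of coordinates -/
def SS (T : Finset (Fin n)) : Prop := (∃ i, T = {i}) ∨ ∃ i j : Fin n, (i : ℕ) + 1 = j ∧ T = {i, j}

theorem SS.nonempty {T : Finset (Fin n)} (h : SS T) : T.Nonempty := by
  rcases h with ⟨i, rfl⟩ | ⟨i, j, _, rfl⟩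
  · exact ⟨i, Finset.mem_singleton_self i⟩
  · exact ⟨i, Finset.mem_insert_self i _⟩

theorem SS.pair {T U : Finset (Fin n)} (hT : SS T) (hU : SS U) (hd : Disjoint T U)
    (hTU : SS (T ∪ U)) : ∃ i j : Fin n, T = {i} ∧ U = {j} ∧ ((i : ℕ) + 1 = j ∨ (j : ℕ) + 1 = i) := by
  have hcard : ∀ W : Finset (Fin n), SS W → W.card ≤ 2 := by
    rintro W (⟨i, rfl⟩ | ⟨i, j, _, rfl⟩)
    · simp
    · exact Finset.card_le_two
  have hc2 : ∀ i j : Fin n, (i : ℕ) + 1 = j → ({i, j} : Finset (Fin n)).card = 2 := by
    intro i j hij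
    apply Finset.card_pair
    intro h
    rw [h] at hij
    omega
  have h1 := hcard _ hTU
  rw [Finset.card_union_of_disjoint hd] at h1
  have hT1 := hT.nonempty.card_pos
  have hU1 := hU.nonempty.card_pos
  rcases hT with ⟨i, rfl⟩ | ⟨i, i', hi, rfl⟩
  · rcases hU with ⟨j, rfl⟩ | ⟨j, j', hj, rfl⟩
    · refine ⟨i, j, rfl, rfl, ?_⟩
      rw [Finset.disjoint_singleton] at hd
      rcases hTU with ⟨k, hk⟩ | ⟨k, l, hkl, hk⟩
      · have h3 : i ∈ ({k} : Finset (Fin n)) := by rw [← hk]; simp
        have h4 : j ∈ ({k} : Finset (Fin n)) := by rw [← hk]; simp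
        rw [Finset.mem_singleton] at h3 h4
        exact absurd (h3.trans h4.symm) hd
      · have h3 : i ∈ ({k, l} : Finset (Fin n)) := by rw [← hk]; simp
        have h4 : j ∈ ({k, l} : Finset (Fin n)) := by rw [← hk]; simp
        rw [Finset.mem_insert, Finset.mem_singleton] at h3 h4
        rcases h3 with rfl | rfl <;> rcases h4 with rfl | rfl
        · exact absurd rfl hd
        · exact Or.inl hkl
        · exact Or.inr hkl
        · exact absurd rfl hd
    · rw [hc2 _ _ hj] at h1; omega
  · rw [hc2 _ _ hi] at h1; omega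

theorem path_aut (σ : Fin n → Fin n) (hinj : Function.Injective σ)
    (hadj : ∀ i j : Fin n, (i : ℕ) + 1 = j → ((σ i : ℕ) + 1 = σ j ∨ (σ j : ℕ) + 1 = σ i)) :
    ∀ i, σ (σ i) = i := by
  rcases Nat.lt_or_ge n 2 with hn | hn
  · intro i
    apply Fin.ext
    have h1 := (σ (σ i)).2
    have h2 := i.2
    omega
  · obtain ⟨d, hd⟩ : ∃ d : ℤ, (σ ⟨1, by omega⟩ : ℤ) - (σ ⟨0, by omega⟩ : ℤ) = d := ⟨_, rfl⟩
    have hstep : ∀ i (hi : i + 1 < n), (σ ⟨i + 1, hi⟩ : ℤ) - (σ ⟨i, by omega⟩ : ℤ) = d := by
      intro i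
      induction i with
      | zero => intro hi; exact hd
      | succ i ih =>
        intro hi
        have h1 := ih (by omega)
        have h2 := hadj ⟨i, by omega⟩ ⟨i + 1, by omega⟩ rfl
        have h3 := hadj ⟨i + 1, by omega⟩ ⟨i + 1 + 1, hi⟩ rfl
        have h4 : (σ ⟨i, by omega⟩ : ℕ) ≠ σ ⟨i + 1 + 1, hi⟩ := by
          intro h5
          have h6 := congrArg Fin.val (hinj (Fin.ext h5))
          change i = i + 1 + 1 at h6
          omega
        omega
    have hlin : ∀ i (hi : i < n), (σ ⟨i, hi⟩ : ℤ) = (σ ⟨0, by omega⟩ : ℤ) + i * d := by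
      intro i
      induction i with
      | zero => intro hi; simp
      | succ i ih =>
        intro hi
        have h1 := ih (by omega)
        have h2 := hstep i hi
        push_cast
        linarith
    have hd1 : d = 1 ∨ d = -1 := by
      have h3 := hadj ⟨0, by omega⟩ ⟨1, by omega⟩ rfl
      omega
    have hlast := hlin (n - 1) (by omega)
    have hb := (σ ⟨n - 1, by omega⟩).2
    have hb0 := (σ ⟨0, by omega⟩).2
    have hcast : ((n - 1 : ℕ) : ℤ) = (n : ℤ) - 1 := by omega
    rw [hcast] at hlast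
    rcases hd1 with rfl | rfl
    · have h0 : (σ ⟨0, by omega⟩ : ℤ) = 0 := by omega
      have hid : ∀ i, σ i = i := by
        intro i
        have := hlin i.1 i.2
        apply Fin.ext
        have h5 : (⟨i.1, i.2⟩ : Fin n) = i := rfl
        rw [h5, h0] at this
        omega
      intro i
      rw [hid, hid]
    · have h0 : (σ ⟨0, by omega⟩ : ℤ) = n - 1 := by omega
      have hid : ∀ i, (σ i : ℤ) = n - 1 - i := by
        intro i
        have := hlin i.1 i.2
        have h5 : (⟨i.1, i.2⟩ : Fin n) = i := rfl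
        rw [h5, h0] at this
        rw [this]
        ring
      intro i
      apply Fin.ext
      have h1 := hid i
      have h2 := hid (σ i)
      omega

open Classical in
/-- the colouring in odd characteristic -/
noncomputable def colp (p : ℕ) (v : Fin n → ZMod p) : ZMod 3 :=
  if v = 0 then 0 else if ∃ T, SS T ∧ v = ind p T then 1 else 2

theorem colp_zero {v : Fin n → ZMod p} : colp p v = 0 ↔ v = 0 := by
  unfold colp
  split_ifs with h1 h2
  · simp [h1]
  · simp only [h1, iff_false]; decide
  · simp only [h1, iff_false]; decide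

theorem ind_ne_zero [Fact p.Prime] {T : Finset (Fin n)} (hT : T.Nonempty) : ind p T ≠ 0 := by
  obtain ⟨i, hi⟩ := hT
  intro h
  have h1 := congrFun h i
  simp [ind, hi] at h1

theorem colp_one [Fact p.Prime] {v : Fin n → ZMod p} :
    colp p v = 1 ↔ ∃ T, SS T ∧ v = ind p T := by
  unfold colp
  split_ifs with h1 h2
  · constructor
    · intro h; exact absurd h (by decide)
    · rintro ⟨T, hT, rfl⟩
      exact absurd h1 (ind_ne_zero hT.nonempty)
  · simp [h2]
  · simp only [h2, iff_false]; decide

theorem odd_power [Fact p.Prime] (hp : p ≠ 2) (h : (Fin n → ZMod p) ≃ (Fin n → ZMod p))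
    (ha : Aff h) (hc : ∀ x, colp p (h x) = colp p x) : ∀ x, h (h x) = x := by
  have h0 : h 0 = 0 := by rw [← colp_zero, hc, colp_zero]
  have hadd := ha.add h0
  have hS : ∀ T : Finset (Fin n), SS T → ∃ U, SS U ∧ h (ind p T) = ind p U := by
    intro T hT
    rw [← colp_one, hc, colp_one]
    exact ⟨T, hT, rfl⟩
  have hpair : ∀ i j : Fin n, (i : ℕ) + 1 = j → ∃ i' j' : Fin n, h (ind p {i}) = ind p {i'} ∧
      h (ind p {j}) = ind p {j'} ∧ ((i' : ℕ) + 1 = j' ∨ (j' : ℕ) + 1 = i') := by
    intro i j hij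
    obtain ⟨T, hT, hT'⟩ := hS {i} (Or.inl ⟨i, rfl⟩)
    obtain ⟨U, hU, hU'⟩ := hS {j} (Or.inl ⟨j, rfl⟩)
    obtain ⟨W, hW, hW'⟩ := hS {i, j} (Or.inr ⟨i, j, hij, rfl⟩)
    have hd : Disjoint ({i} : Finset (Fin n)) {j} := by
      rw [Finset.disjoint_singleton]
      intro h
      rw [h] at hij
      omega
    have h1 := ind_add_disj (p := p) hd
    have h2 : ({i} : Finset (Fin n)) ∪ {j} = {i, j} := rfl
    rw [h2] at h1
    rw [← h1, hadd, hT', hU'] at hW'
    obtain ⟨hd', hW2⟩ := ind_add hp hW'
    rw [hW2] at hW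
    obtain ⟨i', j', rfl, rfl, h3⟩ := hT.pair hU hd' hW
    exact ⟨i', j', hT', hU', h3⟩
  have hsing : ∀ i : Fin n, ∃ i' : Fin n, h (ind p {i}) = ind p {i'} := by
    intro i
    rcases Nat.lt_or_ge (i + 1) n with h1 | h1
    · obtain ⟨i', j', h2, _⟩ := hpair i ⟨i + 1, h1⟩ rfl
      exact ⟨i', h2⟩
    · by_cases hi : (i : ℕ) = 0
      · obtain ⟨T, hT, hT'⟩ := hS {i} (Or.inl ⟨i, rfl⟩)
        rcases hT with ⟨i', rfl⟩ | ⟨k, l, hkl, rfl⟩
        · exact ⟨i', hT'⟩
        · have := l.2
          omega
      · obtain ⟨i', j', _, h2, _⟩ := hpair ⟨i - 1, by omega⟩ i (by simp only []; omega)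
        exact ⟨j', h2⟩
  choose σ hσ using hsing
  have hsingle : ∀ i j : Fin n, ind p {i} = ind p {j} → i = j := by
    intro i j hij
    exact Finset.singleton_injective (ind_inj hij)
  have hinj : Function.Injective σ := by
    intro i j hij
    apply hsingle
    apply h.injective
    rw [hσ, hσ, hij]
  have hadj : ∀ i j : Fin n, (i : ℕ) + 1 = j → ((σ i : ℕ) + 1 = σ j ∨ (σ j : ℕ) + 1 = σ i) := by
    intro i j hij
    obtain ⟨i', j', h1, h2, h3⟩ := hpair i j hij
    rw [hσ] at h1 h2
    rw [hsingle _ _ h1, hsingle _ _ h2]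
    exact h3
  have hσσ := path_aut σ hinj hadj
  let L : (Fin n → ZMod p) →+ (Fin n → ZMod p) :=
    { toFun := fun x => h (h x), map_zero' := by rw [h0, h0], map_add' := fun x y => by
        rw [hadd, hadd] }
  have hL : L.toZModLinearMap p = LinearMap.id := by
    apply LinearMap.pi_ext'
    intro i
    apply LinearMap.ext_ring
    change h (h (Pi.single i 1)) = Pi.single i 1
    have h1 : (Pi.single i 1 : Fin n → ZMod p) = ind p {i} := by
      funext j
      simp [ind, Pi.single_apply]
    rw [h1, hσ, hσ, hσσ]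
  intro x
  exact congrArg (fun f => f x) hL

end Odd

theorem three_power (h : (Fin 1 → ZMod 3) ≃ (Fin 1 → ZMod 3)) (ha : Aff h)
    (h0 : h 0 = 0) : ∀ x, h (h x) = x := by
  have hadd := ha.add h0
  have hall : ∀ x : Fin 1 → ZMod 3, x = 0 ∨ x = 1 ∨ x = 1 + 1 := by decide
  have h1 := hadd 1 1
  have h2 : h 1 ≠ 0 := by
    intro h3
    rw [← h0] at h3
    exact absurd (h.injective h3) (by decide)
  have h11 : h (h 1) = 1 := by
    rcases hall (h 1) with h3 | h3 | h3
    · exact absurd h3 h2
    · rw [h3, h3]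
    · rw [h3, h1, h3]; decide
  intro x
  rcases hall x with rfl | rfl | rfl
  · rw [h0, h0]
  · exact h11
  · rw [h1, hadd, h11]

theorem z02 : (0 : ZMod 3) ≠ 2 := by decide

theorem z12 : (1 : ZMod 3) ≠ 2 := by decide

/-- The colouring of a finite elementary abelian group. -/
theorem vec (p n : ℕ) [Fact p.Prime] : ∃ c : (Fin n → ZMod p) → ZMod 3,
    (∀ v, c v = 0 ↔ v = 0) ∧ (p ^ n = 3 → ∀ v, c v ≠ 2) ∧
    ∀ h : (Fin n → ZMod p) ≃ (Fin n → ZMod p), Aff h → (∀ x, c (h x) = c x) →
      ∃ k : ℕ, ∀ x, h^[2 ^ k] x = x := by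
  have hpp : p.Prime := Fact.out
  by_cases hp : p = 2
  · subst hp
    refine ⟨col2, fun v => col2_zero, ?_, fun h ha hc => two_power h ha hc⟩
    intro h3
    rcases n with _ | n
    · simp at h3
    · rw [pow_succ] at h3; omega
  · by_cases h3 : p ^ n = 3
    · have hn : n = 1 := by
        rcases n with _ | _ | n
        · simp at h3
        · rfl
        · exfalso
          have h4 : 2 ≤ p := hpp.two_le
          have h5 : p ^ (n + 1 + 1) = p ^ n * (p * p) := by ring
          have h6 : 1 ≤ p ^ n := Nat.one_le_pow _ _ hpp.pos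
          rw [h5] at h3
          nlinarith
      subst hn
      rw [pow_one] at h3
      subst h3
      refine ⟨fun v => if v = 0 then 0 else 1, ?_, ?_, ?_⟩
      · intro v
        by_cases hv : v = 0 <;> simp [hv]
      · intro _ v
        have h02 := z02
        have h12 := z12
        change (if v = 0 then (0 : ZMod 3) else 1) ≠ 2
        by_cases hv : v = 0
        · rw [if_pos hv]; exact h02
        · rw [if_neg hv]; exact h12
      · intro h ha hc
        refine ⟨1, fun x => ?_⟩
        have h0 : h 0 = 0 := by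
          by_contra hcon
          have := hc 0
          simp [hcon] at this
        exact three_power h ha h0 x
    · refine ⟨colp p, fun v => colp_zero, fun h4 => absurd h4 h3, fun h ha hc => ⟨1, ?_⟩⟩
      intro x
      exact odd_power hp h ha hc x

end Pool.Agent.Q88.ThreeCol
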